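import Pool.Agent.Helper35.HC.StE

set_option autoImplicit false

namespace Pool.Agent.Helper97.HC

open Helper35.HC Helper35.HSF Helper35.MS Helper35.PI Helper35.PI2 Helper32.CL
open scoped ContDiff Manifold Topology ENNReal BigOperators
open MeasureTheory Set Filter

theorem drb_cdiff {n : ℕ} {M V : Type} [TopologicalSpace M] [ChartedSpace (EE n) M]
    [IsManifold (𝓡 n) ∞ M] [NormedAddCommGroup V] [NormedSpace ℝ V] (u : M → V)
    (hu : ContMDiff (𝓡 n) 𝓘(ℝ, V) ∞ u) (q : M) :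
    DifferentiableAt ℝ (fun z => u ((chartAt (EE n) q).symm z)) (chartAt (EE n) q q) := by
  have h1 : ContMDiffOn (𝓡 n) (𝓡 n) ∞ (chartAt (EE n) q).symm (chartAt (EE n) q).target :=
    contMDiffOn_chart_symm
  have h2 := hu.comp_contMDiffOn h1
  have h3 := contMDiffOn_iff_contDiffOn.1 h2
  have h4 : (chartAt (EE n) q).target ∈ 𝓝 (chartAt (EE n) q q) :=
    (chartAt (EE n) q).open_target.mem_nhds (mem_chart_target (EE n) q)
  exact (h3.contDiffAt h4).differentiableAt (by simp)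

theorem drb_fixV {n N : ℕ} {M : Type} [TopologicalSpace M] [ChartedSpace (EE n) M]
    {J : Set ℝ} {u : M → ℝ → EE N} (hu : SmV n J u) {t : ℝ} (ht : t ∈ J) :
    ContMDiff (𝓡 n) 𝓘(ℝ, EE N) ∞ (fun q => u q t) := by
  have h1 : ContMDiff (𝓡 n) ((𝓡 n).prod 𝓘(ℝ, ℝ)) ∞ (fun q : M => (q, t)) :=
    contMDiff_id.prodMk contMDiff_const
  exact ContMDiffOn.comp_contMDiff hu h1 (fun q => ⟨mem_univ _, ht⟩)

theorem drb_fixJ {n : ℕ} {M : Type} [TopologicalSpace M] [ChartedSpace (EE n) M]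
    {J : Set ℝ} {u : M → ℝ → ℝ} (hu : SmJ n J u) {t : ℝ} (ht : t ∈ J) :
    ContMDiff (𝓡 n) 𝓘(ℝ, ℝ) ∞ (fun q => u q t) := by
  have h1 : ContMDiff (𝓡 n) ((𝓡 n).prod 𝓘(ℝ, ℝ)) ∞ (fun q : M => (q, t)) :=
    contMDiff_id.prodMk contMDiff_const
  exact ContMDiffOn.comp_contMDiff hu h1 (fun q => ⟨mem_univ _, ht⟩)

theorem drb_Q {n N : ℕ} (L : EE (n + 1) →ₗᵢ[ℝ] EE N) (v : EE N) : ‖Qj L v‖ ≤ ‖v‖ := by
  have h1 : ∀ x : EE (n + 1), (inner ℝ v (L x) : ℝ) = inner ℝ (Pj L v) x := by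
    intro x
    unfold Pj
    rw [ContinuousLinearMap.adjoint_inner_left]
    rfl
  have h2 : (inner ℝ v (L (Pj L v)) : ℝ) = ‖Pj L v‖ ^ 2 := by
    rw [h1, real_inner_self_eq_norm_sq]
  have h3 : ‖Qj L v‖ ^ 2 = ‖v‖ ^ 2 - ‖Pj L v‖ ^ 2 := by
    unfold Qj
    rw [norm_sub_sq_real, h2, L.norm_map]
    ring
  have h4 : ‖Qj L v‖ ^ 2 ≤ ‖v‖ ^ 2 := by
    rw [h3]
    nlinarith [sq_nonneg ‖Pj L v‖]
  exact le_of_sq_le_sq h4 (norm_nonneg _)

theorem drb_gw {n N : ℕ} {M : Type} [TopologicalSpace M] [ChartedSpace (EE n) M]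
    [IsManifold (𝓡 n) ∞ M] (v : M → Fin N → ℝ) (q : M) (h : EE n)
    (hd : ∀ i, DifferentiableAt ℝ (fun z => v ((chartAt (EE n) q).symm z) i)
      (chartAt (EE n) q q)) :
    cd n (fun p => ∑ i, v p i) q h = ∑ i, cd n (fun p => v p i) q h := by
  unfold cd
  rw [fderiv_fun_sum (fun i _ => hd i)]
  simp

theorem hDRB (hDRV : StDRV) (hCDG : StCDG) : StDRB := by
  intro n N hn M _ _ _ J F t l ε q₀ d L
  have hn1 : 1 ≤ n := by omega
  obtain ⟨sC, sK, sG, hb⟩ := hDRV n N hn1 M J F d.fl d.nz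
  have kC := drb_fixV sC d.tJ
  have kK := drb_fixJ sK d.tJ
  have kG := fun w => drb_fixJ (sG w) d.tJ
  have dG : ∀ (q : M) (i : Fin N), DifferentiableAt ℝ
      (fun z => gw n F (Qj L (ee i)) ((chartAt (EE n) q).symm z) t) (chartAt (EE n) q q) :=
    fun q i => drb_cdiff (fun p => gw n F (Qj L (ee i)) p t) (kG _) q
  refine ⟨kK.continuous, kC.continuous, ?_, ?_⟩
  · unfold tlt
    exact continuous_finsetSum _ fun i _ => (kG _).continuous
  intro q
  have dC := drb_cdiff _ kC q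
  have dK := drb_cdiff _ kK q
  refine ⟨dK, dC, ?_, ?_⟩
  · unfold tlt
    exact DifferentiableAt.fun_sum fun i _ => dG q i
  intro hl h
  obtain ⟨hth0, heh0, gK, gall⟩ := hb q t d.tJ
  obtain ⟨-, -, -, -, c5, c6⟩ := hCDG n N M J F d.fl.toIsImmJ t d.tJ q
  have l0 := d.l0
  have e0 := d.ε0
  set Y := ‖HH (n := n) F q t‖ with hY
  have hnr : (2 : ℝ) ≤ n := by exact_mod_cast hn
  have hn0 : (0 : ℝ) < n := by linarith
  have hYl : n * l ≤ 2 * Y := by
    have h1 : kH n F q t = Y / n := rfl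
    rw [h1] at hl
    have h2 : l ≤ 2 * Y / n := by
      rw [mul_div_assoc]
      exact hl
    rw [le_div_iff₀ hn0] at h2
    linarith
  have hY0 : 0 < Y := by
    have : 0 < n * l := mul_pos hn0 l0
    linarith
  have s1 : Real.sqrt (thN n F q t) ≤ ε * l := by
    rw [show ε * l = Real.sqrt ((ε * l) ^ 2) from (Real.sqrt_sq (by positivity)).symm]
    apply Real.sqrt_le_sqrt
    have := d.th q
    rw [mul_pow]
    exact this
  have s2 : Real.sqrt (eH n F q t) ≤ ε * l ^ 2 := by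
    rw [show ε * l ^ 2 = Real.sqrt ((ε * l ^ 2) ^ 2) from
      (Real.sqrt_sq (by positivity)).symm]
    apply Real.sqrt_le_sqrt
    have := d.eh q
    calc eH n F q t ≤ ε ^ 2 * l ^ 4 := this
      _ = (ε * l ^ 2) ^ 2 := by ring
  have hF0 := norm_nonneg (cd n (fun p => F p t) q h)
  -- real valued functions
  have hreal : ∀ (φ : M → ℝ) (B : ℝ), ‖gdM n F t φ q‖ ≤ B →
      ‖cd n φ q h‖ ≤ B * ‖cd n (fun p => F p t) q h‖ := by
    intro φ B hB
    rw [c5 φ h]
    exact (norm_inner_le_norm _ _).trans (mul_le_mul_of_nonneg_right hB hF0)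
  have b1 : Real.sqrt (thN n F q t) / Y ≤ 2 * ε / n := by
    rw [div_le_div_iff₀ hY0 hn0]
    have h1 : Real.sqrt (thN n F q t) * n ≤ ε * l * n :=
      mul_le_mul_of_nonneg_right s1 hn0.le
    have h2 : ε * (n * l) ≤ ε * (2 * Y) := mul_le_mul_of_nonneg_left hYl e0
    nlinarith
  have b2 : Real.sqrt (eH n F q t) / Y ≤ 2 * (ε * l) / n := by
    rw [div_le_div_iff₀ hY0 hn0]
    have h1 : Real.sqrt (eH n F q t) * n ≤ ε * l ^ 2 * n :=
      mul_le_mul_of_nonneg_right s2 hn0.le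
    have h2 : (ε * l) * (n * l) ≤ (ε * l) * (2 * Y) :=
      mul_le_mul_of_nonneg_left hYl (by positivity)
    nlinarith
  have b3 : Real.sqrt (eH n F q t) / Y ^ 2 ≤ 4 * ε / n ^ 2 := by
    have h1 : Real.sqrt (eH n F q t) / Y ^ 2 = Real.sqrt (eH n F q t) / Y * (1 / Y) := by
      field_simp
    have h2 : 1 / Y ≤ 2 / (n * l) := by
      rw [div_le_div_iff₀ hY0 (by positivity)]
      linarith
    rw [h1]
    calc Real.sqrt (eH n F q t) / Y * (1 / Y) ≤ (2 * (ε * l) / n) * (2 / (n * l)) :=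
          mul_le_mul b2 h2 (by positivity) (by positivity)
      _ = 4 * ε / n ^ 2 := by
          field_simp
          ring
  have i1 : ∀ x : ℝ, 0 ≤ x → x / n ≤ x / 2 := fun x hx =>
    div_le_div_of_nonneg_left hx (by norm_num) hnr
  refine ⟨?_, ?_, ?_⟩
  · apply hreal
    refine gK.trans ?_
    rw [div_le_iff₀ hn0]
    have h1 : 0 ≤ ε * l ^ 2 := by positivity
    nlinarith
  · refine c6 N (fun p => cF n F p t) dC (4 * ε) (by linarith) ?_ h
    intro w hw
    refine ((gall w hw).1).trans ?_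
    have h1 : n * Real.sqrt (eH n F q t) / Y ^ 2 ≤ 4 * ε / n := by
      rw [mul_div_assoc]
      calc (n : ℝ) * (Real.sqrt (eH n F q t) / Y ^ 2) ≤ n * (4 * ε / n ^ 2) :=
            mul_le_mul_of_nonneg_left b3 hn0.le
        _ = 4 * ε / n := by
            field_simp
    have h2 : n * Real.sqrt (thN n F q t) / Y ≤ 2 * ε := by
      rw [mul_div_assoc]
      calc (n : ℝ) * (Real.sqrt (thN n F q t) / Y) ≤ n * (2 * ε / n) :=
            mul_le_mul_of_nonneg_left b1 hn0.le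
        _ = 2 * ε := by
            field_simp
    have h3 := i1 (4 * ε) (by linarith)
    linarith
  · have hsum : cd n (fun p => tlt n F L p t) q h
        = ∑ i : Fin N, cd n (fun p => gw n F (Qj L (ee i)) p t) q h :=
      drb_gw (fun p i => gw n F (Qj L (ee i)) p t) q h (dG q)
    rw [hsum]
    have hi : ∀ i : Fin N, ‖cd n (fun p => gw n F (Qj L (ee i)) p t) q h‖
        ≤ 4 * ε * l * ‖cd n (fun p => F p t) q h‖ := by
      intro i
      apply hreal
      have hw : ‖Qj L (ee i : EE N)‖ ≤ 1 := by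
        refine (drb_Q L _).trans ?_
        unfold ee
        simp
      refine ((gall _ hw).2).trans ?_
      have h1 : 2 * Real.sqrt (eH n F q t) / Y ≤ 4 * (ε * l) / n := by
        rw [mul_div_assoc]
        calc 2 * (Real.sqrt (eH n F q t) / Y) ≤ 2 * (2 * (ε * l) / n) :=
              mul_le_mul_of_nonneg_left b2 (by norm_num)
          _ = 4 * (ε * l) / n := by ring
      have h2 := i1 (4 * (ε * l)) (by positivity)
      linarith
    calc ‖∑ i : Fin N, cd n (fun p => gw n F (Qj L (ee i)) p t) q h‖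
        ≤ ∑ i : Fin N, ‖cd n (fun p => gw n F (Qj L (ee i)) p t) q h‖ := norm_sum_le _ _
      _ ≤ ∑ _i : Fin N, 4 * ε * l * ‖cd n (fun p => F p t) q h‖ :=
          Finset.sum_le_sum fun i _ => hi i
      _ = 4 * N * ε * l * ‖cd n (fun p => F p t) q h‖ := by
          rw [Finset.sum_const, Finset.card_univ, Fintype.card_fin, nsmul_eq_mul]
          ring

end Pool.Agent.Helper97.HC
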